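import Pool.Agent.Helper50.FE.Goals

/-!
Project FE (MP_f5847d_nt), packet FE-LB: lower bound of a nonzero value by denominators and common
factors.
-/

set_option autoImplicit false

namespace Pool.Agent.Helper22.FE

open Finset Pool.Agent.Helper22.FSU Pool.Agent.Helper50.FE

theorem fact_dvd (n0 n : ℕ) : (n0.factorial) ^ (n / n0) ∣ n.factorial := by
  obtain ⟨V, hV, -⟩ := fact_pow_mul n0 (n / n0) (n / n0 * n0) le_rfl
  refine (Dvd.intro V hV).trans (Nat.factorial_dvd_factorial (Nat.div_mul_le_self n n0))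

theorem term_int {S : Finset ℕ} (hS : ∀ p ∈ S, Nat.Prime p) {m : ℕ} (c : (Fin m → ℕ) → ℤ)
    (n : Fin m → ℕ) (k : Fin m → ℕ → ℕ) (e : Fin m → ℕ) (E : ℕ → ℕ) (g n0 : ℕ)
    (a : Fin m → ℕ)
    (h : c a ≠ 0 → (∀ i, e i ≤ a i) →
      (∀ p ∈ S, ∑ i, (a i - e i) * k i p ≤ E p) ∧ g ≤ ∑ i, (a i - e i) * (n i / n0)) :
    ∃ z : ℤ, (su S E : ℚ) * ((c a : ℚ) * ∏ i, ((((a i).choose (e i) : ℕ) : ℚ) *
      (((n i).factorial : ℚ) / (su S (k i) : ℚ)) ^ (a i - e i))) =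
      ((n0.factorial : ℕ) : ℚ) ^ g * (z : ℚ) := by
  by_cases hc : c a = 0
  · exact ⟨0, by simp [hc]⟩
  by_cases he : ∀ i, e i ≤ a i
  · obtain ⟨h1, h2⟩ := h hc he
    have hA : (n0.factorial) ^ g ∣ ∏ i, ((n i).factorial) ^ (a i - e i) := by
      refine (pow_dvd_pow _ h2).trans ?_
      rw [← Finset.prod_pow_eq_pow_sum]
      refine Finset.prod_dvd_prod_of_dvd _ _ fun i _ => ?_
      rw [mul_comm, pow_mul]
      exact pow_dvd_pow_of_dvd (fact_dvd n0 (n i)) _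
    have hB : ∏ i, (su S (k i)) ^ (a i - e i) ∣ su S E := by
      rw [prod_su_pow]
      unfold su
      refine Finset.prod_dvd_prod_of_dvd _ _ fun p hp => pow_dvd_pow _ (h1 p hp)
    obtain ⟨A, hA⟩ := hA
    obtain ⟨B, hB⟩ := hB
    refine ⟨c a * (∏ i, (((a i).choose (e i) : ℕ) : ℤ)) * A * B, ?_⟩
    have hp : (∏ i, ((su S (k i) : ℚ)) ^ (a i - e i)) ≠ 0 := by
      refine Finset.prod_ne_zero_iff.2 fun i _ => pow_ne_zero _ ?_
      exact_mod_cast (su_pos hS (k i)).ne'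
    have hA' : (∏ i, (((n i).factorial : ℚ)) ^ (a i - e i)) =
        ((n0.factorial : ℕ) : ℚ) ^ g * (A : ℚ) := by exact_mod_cast hA
    have hB' : (su S E : ℚ) = (∏ i, ((su S (k i) : ℚ)) ^ (a i - e i)) * (B : ℚ) := by
      exact_mod_cast hB
    rw [Finset.prod_mul_distrib]
    simp_rw [div_pow]
    rw [Finset.prod_div_distrib, hA', hB']
    push_cast
    field_simp
  · push Not at he
    obtain ⟨i, hi⟩ := he
    refine ⟨0, ?_⟩
    have : ∏ i, ((((a i).choose (e i) : ℕ) : ℚ) *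
      (((n i).factorial : ℚ) / (su S (k i) : ℚ)) ^ (a i - e i)) = 0 := by
      refine Finset.prod_eq_zero (Finset.mem_univ i) ?_
      rw [Nat.choose_eq_zero_of_lt hi]
      simp
    rw [this]
    simp

theorem goalLB : LB := by
  intro S hS m r c n k e E g n0 _ h hne
  have hz : ∀ a, ∃ z : ℤ, (su S E : ℚ) * ((c a : ℚ) * ∏ i, ((((a i).choose (e i) : ℕ) : ℚ) *
      (((n i).factorial : ℚ) / (su S (k i) : ℚ)) ^ (a i - e i))) =
      ((n0.factorial : ℕ) : ℚ) ^ g * (z : ℚ) := fun a => term_int hS c n k e E g n0 a (h a)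
  choose z hz using hz
  have hE : (0 : ℚ) < (su S E : ℚ) := by exact_mod_cast su_pos hS E
  have hER : (0 : ℝ) < (su S E : ℝ) := by exact_mod_cast su_pos hS E
  have hv : (su S E : ℚ) * Helper50.FE.val r c e (fun i => ((n i).factorial : ℚ) / (su S (k i) : ℚ)) =
      ((n0.factorial : ℕ) : ℚ) ^ g * ((∑ a ∈ box r, z a : ℤ) : ℚ) := by
    unfold Helper50.FE.val
    rw [Finset.mul_sum, Int.cast_sum, Finset.mul_sum]
    exact Finset.sum_congr rfl fun a _ => hz a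
  set v := Helper50.FE.val r c e (fun i => ((n i).factorial : ℚ) / (su S (k i) : ℚ)) with hvdef
  have hZ : (∑ a ∈ box r, z a : ℤ) ≠ 0 := by
    intro h0
    rw [h0] at hv
    simp only [Int.cast_zero, mul_zero, mul_eq_zero] at hv
    rcases hv with hv | hv
    · exact hE.ne' hv
    · exact hne hv
  have hZ1 : (1 : ℝ) ≤ |((∑ a ∈ box r, z a : ℤ) : ℝ)| := by
    have := Int.one_le_abs hZ
    exact_mod_cast this
  have hvR : (su S E : ℝ) * ((v : ℚ) : ℝ) =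
      ((n0.factorial : ℕ) : ℝ) ^ g * ((∑ a ∈ box r, z a : ℤ) : ℝ) := by
    exact_mod_cast hv
  rw [div_le_iff₀ hER]
  have h3 : |((v : ℚ) : ℝ)| * (su S E : ℝ) =
      ((n0.factorial : ℕ) : ℝ) ^ g * |((∑ a ∈ box r, z a : ℤ) : ℝ)| := by
    have h4 : |(su S E : ℝ) * ((v : ℚ) : ℝ)| = (su S E : ℝ) * |((v : ℚ) : ℝ)| := by
      rw [abs_mul, abs_of_pos hER]
    rw [mul_comm, ← h4, hvR, abs_mul,
      abs_of_nonneg (by positivity : (0 : ℝ) ≤ ((n0.factorial : ℕ) : ℝ) ^ g)]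
  rw [h3]
  exact le_mul_of_one_le_right (by positivity) hZ1

end Pool.Agent.Helper22.FE
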